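import Pool.Agent.X23.CT2

/-!
# Products of `k` consecutive values of the Liouville function for lengths `k` from an automatic set

From the starting files: correlations of the Liouville function with a shift from an automatic set
(`Pool.Agent.W93.AU.au_corr`).
From Mathlib: `DFA ℕ σ`: the deterministic automata with the set of states `σ` and the alphabet `ℕ`;
`M.accepts`: the set of the words accepted by `M`; `Nat.digits c k`: the digits of `k` in base `c`, from the
least significant to the most significant one; `ArithmeticFunction.cardFactors n`: the number of the prime factors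
of `n` with multiplicity; `Finset.Ioc Y X`: the integers `n` with `Y < n ≤ X`.
-/

namespace Pool.Agent.Results.MP_a14ce1_nt.AutomaticLengths

open Finset

/-- The product `λ(a n + b) λ(a (n + 1) + b) ... λ(a (n + k - 1) + b)` of the values of the Liouville function at
`k` consecutive terms of a progression. For `a = 1` and `b = 0` it is `λ(n) λ(n + 1) ... λ(n + k - 1)`. -/
noncomputable def prodL (a b k n : ℕ) : ℝ := ∏ j ∈ range k, (-1 : ℝ) ^ ArithmeticFunction.cardFactors (a * (n + j) + b)

open Classical in
/-- The number of the integers `0 ≤ k < N` with the property `E` whose base `c` digits are accepted by the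
automaton `M`. -/
noncomputable def num {σ : Type} (c : ℕ) (M : DFA ℕ σ) (N : ℕ) (E : ℕ → Prop) : ℝ :=
  (((range N).filter fun k => Nat.digits c k ∈ M.accepts ∧ E k).card : ℝ)

/-- Let `S` be a `c`-automatic set: the set of the integers `k ≥ 0` whose base `c` digits are accepted by a finite
automaton `M` (for instance: the integers without certain digits or blocks of digits, the integers whose number of
digits `1` is even). Suppose that `S` is not sparse: the number of its elements below `N` is not bounded by a power
of `log N`. Let `a ≥ 1`, `B`, `T` and `U` be fixed. For all `N ≥ N₀` (a number which depends on the fixed data only),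
all `b ≤ B N` and all families of at most `log ^ T N` arbitrary weights `ξ l : ℕ → ℂ` bounded by `1`: for all the
lengths `k ∈ S`, `k < N`, with at most `#(S ∩ [0, N)) / log ^ U N` exceptions, the sum of the products of `k`
consecutive values of `λ` along the progression `a n + b`, with the weights `ξ l`, satisfies
`|∑_{n ∈ I} ξ l n * λ(a n + b) ... λ(a (n + k - 1) + b)| ≤ |I| / 2 + N / log ^ U N`
for all `l` and on all the intervals `I = (Y, X]` with `X ≤ B N`. -/
theorem result {σ : Type} [Finite σ] (c : ℕ) (hc : 2 ≤ c) (M : DFA ℕ σ)
    (hM : ∀ k : ℕ, ∃ᶠ N : ℕ in Filter.atTop, Real.log N ^ k < num c M N (fun _ => True))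
    (a B T U : ℕ) (ha : 1 ≤ a) :
    ∃ N₀ : ℕ, ∀ N : ℕ, N₀ ≤ N → ∀ b : ℕ, b ≤ B * N →
      ∀ L : ℕ, (L : ℝ) ≤ Real.log N ^ T → ∀ ξ : Fin L → ℕ → ℂ, (∀ l n, ‖ξ l n‖ ≤ 1) →
        num c M N (fun k => ¬ ∀ l, ∀ Y X : ℕ, Y ≤ X → X ≤ B * N →
          ‖∑ n ∈ Ioc Y X, ξ l n * (prodL a b k n : ℂ)‖ ≤ ((X : ℝ) - Y) / 2 + N / Real.log N ^ U) ≤
          num c M N (fun _ => True) / Real.log N ^ U :=
  Pool.Agent.X23.CT.auto_lengths c hc M hM a B T U ha

end Pool.Agent.Results.MP_a14ce1_nt.AutomaticLengths
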