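import Pool.Agent.X23.CS7

/-!
# Products of `k` consecutive values of the Liouville function: every length `k`, almost all scales

From the starting files: binary correlations of the Liouville function with exponential phases at almost all
scales (`Pool.Agent.Y842.QG.exc_sg`).
From Mathlib: `ArithmeticFunction.cardFactors n`: the number of the prime factors of `n` with multiplicity;
`Finset.Ioc Y X`: the integers `n` with `Y < n ≤ X`.
-/

namespace Pool.Agent.Results.MP_a14ce1_nt.HalfEveryLength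

open Finset Filter

/-- The product `λ(a n + b) λ(a (n + 1) + b) ... λ(a (n + k - 1) + b)` of the values of the Liouville function at
`k` consecutive terms of a progression. For `a = 1` and `b = 0` it is `λ(n) λ(n + 1) ... λ(n + k - 1)`. -/
noncomputable def prodL (a b k n : ℕ) : ℝ := ∏ j ∈ range k, (-1 : ℝ) ^ ArithmeticFunction.cardFactors (a * (n + j) + b)

/-- The sum of the products over the interval `Y < n ≤ X`. For `a = 1`, `b = 0`, `Y = 0` it is `S_k(X)`. -/
noncomputable def sumL (a b k Y X : ℕ) : ℝ := ∑ n ∈ Ioc Y X, prodL a b k n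

/-- `e(x) = exp(2 π i x)`. -/
noncomputable def e (x : ℝ) : ℂ := Complex.exp (2 * Real.pi * x * Complex.I)

open Classical in
/-- The set `E` of positive integers has logarithmic density zero. -/
def LogDensityZero (E : Set ℕ) : Prop := Tendsto
  (fun X : ℕ => (∑ n ∈ Icc 1 X, if n ∈ E then (1 : ℝ) / n else 0) / Real.log X) atTop (nhds 0)

/-- There is one set `E` of logarithmic density zero with the following properties.

* For **every** length `k ≥ 1`, every `a ≥ 1` and `ε > 0`, all the scales `N ≥ N₀(k, a, ε)` outside `E`, all `b` and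
  all the intervals `I = (Y, X]` with `a X + b ≤ N`: the sum `S_k(I)` of the products of `k` consecutive values of
  `λ` along the progression `a n + b`, also with any linear phase `e(α n)`, is at most `|I| / 2 + ε N`. Moreover
  `2 |S_k(I)| + |S_{k+1}(I) + S_{k-1}(I)| ≤ |I| + ε N`.
* For every length `k ≥ 1` the logarithmic sum of the products, `∑_{n ≤ X} λ(a n + b) ... λ(a (n + k - 1) + b) / n`,
  is at most `(1 / 2 + ε) log X` for all large `X`, along every fixed progression `a n + b`. -/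
theorem result : ∃ E : Set ℕ, LogDensityZero E ∧
    (∀ a k : ℕ, 1 ≤ a → 1 ≤ k → ∀ ε : ℝ, 0 < ε → ∃ N₀ : ℕ, ∀ N : ℕ, N₀ ≤ N → N ∉ E →
      ∀ b Y X : ℕ, Y ≤ X → a * X + b ≤ N →
        (∀ α : ℝ, ‖∑ n ∈ Ioc Y X, (prodL a b k n : ℂ) * e (α * n)‖ ≤ ((X : ℝ) - Y) / 2 + ε * N) ∧
        2 * |sumL a b k Y X| + |sumL a b (k + 1) Y X + sumL a b (k - 1) Y X| ≤ ((X : ℝ) - Y) + ε * N) ∧
    (∀ a b k : ℕ, 1 ≤ a → 1 ≤ k → ∀ ε : ℝ, 0 < ε → ∃ X₀ : ℕ, ∀ X : ℕ, X₀ ≤ X →
      |∑ n ∈ Icc 1 X, prodL a b k n / n| ≤ (1 / 2 + ε) * Real.log X) := by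
  obtain ⟨E, hE, h1, h2⟩ := Pool.Agent.X23.CS.exceptional
  refine ⟨E, hE, ?_, ?_⟩
  · intro a k ha hk ε hε
    obtain ⟨k, rfl⟩ := Nat.exists_eq_add_of_le' hk
    obtain ⟨N₁, g1⟩ := Pool.Agent.X23.CS.part1 h2 a (k + 1) ha hk ε hε
    obtain ⟨N₂, g2⟩ := Pool.Agent.X23.CS.part2 h1 h2 a k ha ε hε
    refine ⟨max N₁ N₂, fun N hN hNE b Y X hYX hX => ⟨?_, ?_⟩⟩
    · exact fun α => g1 N ((le_max_left _ _).trans hN) hNE b Y X hYX hX α
    · exact g2 N ((le_max_right _ _).trans hN) hNE b Y X hYX hX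
  · exact fun a b k ha hk ε hε => Pool.Agent.X23.CS.log_sums hE h2 a b k ha hk ε hε

end Pool.Agent.Results.MP_a14ce1_nt.HalfEveryLength
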