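import Pool.Agent.X23.CT3

/-!
# Products of `k` consecutive values of the Liouville function: every length can be adjusted by very few elements of
# an arbitrary set which meets every interval `[x, l x]`

From the starting files: the library `Pool.Agent.Y885` on shifts which are sums of elements of such sets
(`Pool.Agent.Y885.las_kptq`).
From Mathlib: `ArithmeticFunction.cardFactors n`: the number of the prime factors of `n` with multiplicity;
`Finset.Ioc Y X`: the integers `n` with `Y < n ≤ X`.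
-/

namespace Pool.Agent.Results.MP_a14ce1_nt.TailoredLengths

open Finset

/-- The product `λ(a n + b) λ(a (n + 1) + b) ... λ(a (n + k - 1) + b)` of the values of the Liouville function at
`k` consecutive terms of a progression. For `a = 1` and `b = 0` it is `λ(n) λ(n + 1) ... λ(n + k - 1)`. -/
noncomputable def prodL (a b k n : ℕ) : ℝ := ∏ j ∈ range k, (-1 : ℝ) ^ ArithmeticFunction.cardFactors (a * (n + j) + b)

/-- Let `l ≥ 2`, `κ`, `U` and `a ≥ 1` be given. There is a constant `C` such that for all `H` and `B` there is an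
`N₀` with the following property. Let `N ≥ N₀`, let `A` be an arbitrary set of integers which contains an element of
every interval `[x, l x]`, `x ≥ 1` (for example the powers of two; `C` and `N₀` do not depend on the set), let
`h, b ≤ B N` be arbitrary, and let `ξ m` be at most `log ^ κ N` arbitrary weights `ℕ → ℂ` bounded by `1`. Then there
is a set `S` of at most `C (log log N) ^ 2` elements of `A`, all between `log ^ H N` and `N / log ^ H N`, such that
**all** the lengths `k` with `h + ∑ S ≤ k ≤ h + ∑ S + log ^ κ N` (`∑ S` is the sum of the elements of `S`) satisfy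
`|∑_{n ∈ I} ξ m n * λ(a n + b) ... λ(a (n + k - 1) + b)| ≤ |I| / 2 + N / log ^ U N`
for all `m` and on all the intervals `I = (Y, X]` with `X ≤ B N`. -/
theorem result (l κ U a : ℕ) (hl : 2 ≤ l) (ha : 1 ≤ a) : ∃ C : ℝ, ∀ H B : ℕ, ∃ N₀ : ℕ,
    ∀ N : ℕ, N₀ ≤ N → ∀ A : Set ℕ, (∀ x : ℕ, 1 ≤ x → ∃ s ∈ A, x ≤ s ∧ s ≤ l * x) →
    ∀ h b : ℕ, h ≤ B * N → b ≤ B * N →
    ∀ L : ℕ, (L : ℝ) ≤ Real.log N ^ κ → ∀ ξ : Fin L → ℕ → ℂ, (∀ m n, ‖ξ m n‖ ≤ 1) →
    ∃ S : Finset ℕ,
      (∀ s ∈ S, s ∈ A ∧ Real.log N ^ H ≤ s ∧ (s : ℝ) ≤ N / Real.log N ^ H) ∧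
      ((S.card : ℝ) ≤ C * Real.log (Real.log N) ^ 2) ∧
      ∀ m, ∀ k : ℕ, h + ∑ s ∈ S, s ≤ k → (k : ℝ) ≤ (h + ∑ s ∈ S, s : ℕ) + Real.log N ^ κ →
        ∀ Y X : ℕ, Y ≤ X → X ≤ B * N →
          ‖∑ n ∈ Ioc Y X, ξ m n * (prodL a b k n : ℂ)‖ ≤ ((X : ℝ) - Y) / 2 + N / Real.log N ^ U :=
  Pool.Agent.X23.CT.tailored l κ U a hl ha

end Pool.Agent.Results.MP_a14ce1_nt.TailoredLengths
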