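import Pool.Agent.X23.CS9

/-!
# Products of `k` consecutive values of the Liouville function: the bound `x / 3` for almost all lengths `k`

From the starting files: binary correlations of the Liouville function with exponential phases at almost all
scales (`Pool.Agent.Y842.QG.exc_sg`).
From Mathlib: `ArithmeticFunction.cardFactors n`: the number of the prime factors of `n` with multiplicity;
`Finset.Ioc Y X`: the integers `n` with `Y < n ≤ X`; `Finset.Icc 1 N`: the integers from `1` to `N`.
-/

namespace Pool.Agent.Results.MP_a14ce1_nt.ThirdAlmostAllLengths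

open Finset Filter

/-- The product `λ(a n + b) λ(a (n + 1) + b) ... λ(a (n + k - 1) + b)` of the values of the Liouville function at
`k` consecutive terms of a progression. For `a = 1` and `b = 0` it is `λ(n) λ(n + 1) ... λ(n + k - 1)`. -/
noncomputable def prodL (a b k n : ℕ) : ℝ := ∏ j ∈ range k, (-1 : ℝ) ^ ArithmeticFunction.cardFactors (a * (n + j) + b)

/-- The sum of the products over the interval `Y < n ≤ X`. For `a = 1`, `b = 0`, `Y = 0` it is `S_k(X)`. -/
noncomputable def sumL (a b k Y X : ℕ) : ℝ := ∑ n ∈ Ioc Y X, prodL a b k n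

open Classical in
/-- The number of the elements of the finite set `I` with the property `E`. -/
noncomputable def num (I : Finset ℕ) (E : ℕ → Prop) : ℝ := ((I.filter E).card : ℝ)

open Classical in
/-- The set `E` of positive integers has logarithmic density zero. -/
def LogDensityZero (E : Set ℕ) : Prop := Tendsto
  (fun X : ℕ => (∑ n ∈ Icc 1 X, if n ∈ E then (1 : ℝ) / n else 0) / Real.log X) atTop (nhds 0)

/-- There is one set `E` of logarithmic density zero such that for every `a ≥ 1`, `B`, `ε > 0` and all the scales
`N ≥ N₀(a, B, ε)` outside `E`, for every progression `a n + b` with `b ≤ B N`: for all but at most `ε N` of the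
lengths `k ≤ N`, the sum `S_k(I)` of the products of `k` consecutive values of `λ` along the progression is at most
`|I| / 3 + ε N` on **all** the intervals `I = (Y, X]` with `X ≤ N`. -/
theorem result : ∃ E : Set ℕ, LogDensityZero E ∧ ∀ a B : ℕ, 1 ≤ a → ∀ ε : ℝ, 0 < ε →
    ∃ N₀ : ℕ, ∀ N : ℕ, N₀ ≤ N → N ∉ E → ∀ b : ℕ, b ≤ B * N →
      num (Icc 1 N) (fun k => ¬ ∀ Y X : ℕ, Y ≤ X → X ≤ N →
        |sumL a b k Y X| ≤ ((X : ℝ) - Y) / 3 + ε * N) ≤ ε * N :=
  Pool.Agent.X23.CS.third_liouville

end Pool.Agent.Results.MP_a14ce1_nt.ThirdAlmostAllLengths
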